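import Pool.Agent.R489.HC.Stm

/-!
# HC-PARX: parity form of the links and of the connectedness of a triangulated sphere

A set of triangles at a vertex which is even at all edges at the vertex is empty or consists of all
triangles at the vertex; a set of triangles even at all edges is empty or everything.
-/

set_option autoImplicit false

namespace Pool.Agent.R107.HC

open Finset Pool.Agent.R489.HB Pool.Agent.R489.HC

variable {W : Type} [DecidableEq W]

/-- one step: a set even at the common edge and containing one of the two triangles of this edge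
contains the other one -/
theorem step (Phi Psi : Finset (Finset W)) (f g : Finset W) (hf : f ∈ Psi) (hfP : f ∈ Phi)
    (hg : g ∈ Phi) (hfg : f ≠ g) (hsub : Psi ⊆ Phi)
    (hcl : (Phi.filter (fun h => f ∩ g ⊆ h)).card = 2)
    (heven : Even ((Psi.filter (fun h => f ∩ g ⊆ h)).card)) : g ∈ Psi := by
  have h1 : ({f, g} : Finset (Finset W)) ⊆ Phi.filter (fun h => f ∩ g ⊆ h) := by
    intro x hx
    simp only [mem_insert, mem_singleton] at hx
    rcases hx with rfl | rfl
    · exact mem_filter.mpr ⟨hfP, inter_subset_left⟩
    · exact mem_filter.mpr ⟨hg, inter_subset_right⟩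
  have h2 : ({f, g} : Finset (Finset W)) = Phi.filter (fun h => f ∩ g ⊆ h) := by
    apply eq_of_subset_of_card_le h1
    rw [hcl, card_pair hfg]
  by_contra hgn
  have h3 : Psi.filter (fun h => f ∩ g ⊆ h) = {f} := by
    ext x
    simp only [mem_filter, mem_singleton]
    constructor
    · rintro ⟨hx1, hx2⟩
      have : x ∈ ({f, g} : Finset (Finset W)) := by
        rw [h2]; exact mem_filter.mpr ⟨hsub hx1, hx2⟩
      simp only [mem_insert, mem_singleton] at this
      rcases this with rfl | rfl
      · rfl
      · exact absurd hx1 hgn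
    · rintro rfl
      exact ⟨hf, inter_subset_left⟩
  rw [h3] at heven
  simp at heven

theorem mem_edg {Phi : Finset (Finset W)} {f e : Finset W} (hf : f ∈ Phi) (he : e ⊆ f)
    (hc : e.card = 2) : e ∈ edg Phi :=
  mem_biUnion.mpr ⟨f, hf, mem_powersetCard.mpr ⟨he, hc⟩⟩

theorem mem_fc {Phi : Finset (Finset W)} {f : Finset W} {v : W} :
    f ∈ fc Phi {v} ↔ f ∈ Phi ∧ v ∈ f := by
  unfold fc
  rw [mem_filter, singleton_subset_iff]

theorem part1 (Phi : Finset (Finset W)) (h : IsTriangulatedSphere Phi) (v : W)
    (Psi : Finset (Finset W)) (hsub : Psi ⊆ fc Phi {v})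
    (hev : ∀ e ∈ edg Phi, v ∈ e → Even (fc Psi e).card) : Psi = ∅ ∨ Psi = fc Phi {v} := by
  rcases Psi.eq_empty_or_nonempty with h0 | ⟨f, hf⟩
  · exact Or.inl h0
  · right
    apply Subset.antisymm hsub
    intro g hg
    have hsub' : Psi ⊆ Phi := fun x hx => (mem_fc.mp (hsub hx)).1
    obtain ⟨hgP, hvg⟩ := mem_fc.mp hg
    obtain ⟨hfP, hvf⟩ := mem_fc.mp (hsub hf)
    have hch := h.links v f g hfP hgP hvf hvg
    clear hg hgP hvg
    induction hch with
    | refl => exact hf
    | tail _ hbc ih =>
      obtain ⟨hb, hc, hv, hcard⟩ := hbc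
      have he := mem_edg hb inter_subset_left hcard
      refine step Phi Psi _ _ ih hb hc ?_ hsub' (h.closed _ he) (hev _ he hv)
      rintro rfl
      rw [inter_self, h.triangles _ hb] at hcard
      omega

theorem part2 (Phi : Finset (Finset W)) (h : IsTriangulatedSphere Phi)
    (Psi : Finset (Finset W)) (hsub : Psi ⊆ Phi)
    (hev : ∀ e ∈ edg Phi, Even (fc Psi e).card) : Psi = ∅ ∨ Psi = Phi := by
  rcases Psi.eq_empty_or_nonempty with h0 | ⟨f, hf⟩
  · exact Or.inl h0
  · right
    apply Subset.antisymm hsub
    intro g hg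
    have hch := h.connected f g (hsub hf) hg
    clear hg
    induction hch with
    | refl => exact hf
    | tail _ hbc ih =>
      obtain ⟨hb, hc, v, hv⟩ := hbc
      rw [mem_inter] at hv
      have key := part1 Phi h v (fc Psi {v})
        (fun x hx => mem_fc.mpr ⟨hsub (mem_fc.mp hx).1, (mem_fc.mp hx).2⟩)
        (fun e he hve => by
          have : fc (fc Psi {v}) e = fc Psi e := by
            unfold fc
            ext x
            simp only [mem_filter, singleton_subset_iff]
            constructor
            · rintro ⟨⟨h1, _⟩, h2⟩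
              exact ⟨h1, h2⟩
            · rintro ⟨h1, h2⟩
              exact ⟨⟨h1, h2 hve⟩, h2⟩
          rw [this]
          exact hev e he)
      rcases key with key | key
      · have : _ ∈ fc Psi {v} := mem_fc.mpr ⟨ih, hv.1⟩
        rw [key] at this
        simp at this
      · have : _ ∈ fc Phi {v} := mem_fc.mpr ⟨hc, hv.2⟩
        rw [← key] at this
        exact (mem_fc.mp this).1

theorem PARX : S_PARX := by
  intro W _ Phi h
  exact ⟨fun v Psi hsub hev => part1 Phi h v Psi hsub hev,
    fun Psi hsub hev => part2 Phi h Psi hsub hev⟩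

end Pool.Agent.R107.HC
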